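import Pool.Agent.H89.FLT.S

/-! # MFL: monomial matrices on the right do not change the flat -/

set_option autoImplicit false

open Matrix Polynomial

namespace Pool.FLT

namespace MFLaux

lemma inK_mul {n : ℕ} {k l : GR n} (hk : inK k) (hl : inK l) : inK (k * l) := by
  unfold inK at *
  rw [Matrix.SpecialLinearGroup.coe_mul, Matrix.transpose_mul]
  calc (k : Matrix (Fin n) (Fin n) ℝ) * (l : Matrix (Fin n) (Fin n) ℝ) *
        ((l : Matrix (Fin n) (Fin n) ℝ)ᵀ * (k : Matrix (Fin n) (Fin n) ℝ)ᵀ)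
      = (k : Matrix (Fin n) (Fin n) ℝ) * ((l : Matrix (Fin n) (Fin n) ℝ) *
        (l : Matrix (Fin n) (Fin n) ℝ)ᵀ) * (k : Matrix (Fin n) (Fin n) ℝ)ᵀ := by
        simp only [Matrix.mul_assoc]
    _ = 1 := by rw [hl, Matrix.mul_one, hk]

lemma inK_inv {n : ℕ} {k : GR n} (hk : inK k) : inK k⁻¹ := by
  have h1 : ((k⁻¹ : GR n) : Matrix (Fin n) (Fin n) ℝ) = (k : Matrix (Fin n) (Fin n) ℝ)ᵀ := by
    have h2 : ((k⁻¹ : GR n) : Matrix (Fin n) (Fin n) ℝ) * (k : Matrix (Fin n) (Fin n) ℝ) = 1 := by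
      rw [← Matrix.SpecialLinearGroup.coe_mul, inv_mul_cancel, Matrix.SpecialLinearGroup.coe_one]
    calc ((k⁻¹ : GR n) : Matrix (Fin n) (Fin n) ℝ)
        = ((k⁻¹ : GR n) : Matrix (Fin n) (Fin n) ℝ) * ((k : Matrix (Fin n) (Fin n) ℝ) *
          (k : Matrix (Fin n) (Fin n) ℝ)ᵀ) := by
          have h3 : (k : Matrix (Fin n) (Fin n) ℝ) * (k : Matrix (Fin n) (Fin n) ℝ)ᵀ = 1 := hk
          rw [h3, Matrix.mul_one]
      _ = (k : Matrix (Fin n) (Fin n) ℝ)ᵀ := by rw [← Matrix.mul_assoc, h2, Matrix.one_mul]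
  unfold inK at *
  rw [h1, Matrix.transpose_transpose]
  exact mul_eq_one_comm.1 hk

end MFLaux

open MFLaux in
theorem mfl (hMAC : MACStmt) : MFLStmt := by
  intro n Γ g M hM
  obtain ⟨σ, t, h1, -, -⟩ := hMAC n M hM
  ext h
  constructor
  · rintro ⟨γ, hγ, x, -, k, hk, rfl⟩
    obtain ⟨k', hk', e⟩ := h1 x
    refine ⟨γ, hγ, pm σ x + t, Set.mem_univ _, k' * k, inK_mul hk' hk, ?_⟩
    calc inc n γ * (g * M) * ee x * k = inc n γ * g * (M * ee x) * k := by
          simp only [mul_assoc]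
      _ = inc n γ * g * ee (pm σ x + t) * (k' * k) := by rw [e]; simp only [mul_assoc]
  · rintro ⟨γ, hγ, y, -, k, hk, rfl⟩
    have hy : pm σ (pm σ.symm (y - t)) + t = y := by
      have h2 : pm σ (pm σ.symm (y - t)) = y - t := by
        apply Subtype.ext
        ext i
        simp [pm, co]
      rw [h2, sub_add_cancel]
    obtain ⟨k', hk', e⟩ := h1 (pm σ.symm (y - t))
    rw [hy] at e
    refine ⟨γ, hγ, pm σ.symm (y - t), Set.mem_univ _, k'⁻¹ * k, inK_mul (inK_inv hk') hk, ?_⟩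
    have e2 : ee y = M * ee (pm σ.symm (y - t)) * k'⁻¹ := by
      rw [e, mul_inv_cancel_right]
    rw [e2]
    simp only [mul_assoc]

end Pool.FLT
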